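import Pool.Agent.Q297.URD

/-!
# A unit-regular ring with an element whose powers have no common inner inverse

There is a unit-regular ring `R` and an element `a` of `R` such that no single `w` in `R` has the
property that `w ^ k` is an inner inverse of `a ^ k` for every `k ≥ 1`.

Let `K = F(u)` with `F` the field with two elements, let `D` be an `F`-linear left inverse of the
inclusion of `F[u]` in `K`, and let `c` and `l n` be the functionals `c x = coefficient 0 of D x`,
`l n x = c x + coefficient n + 1 of D x`. The ring consists of the sequences of operators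
`x ↦ q x + ∑ l n (p' i x) p i` on `K`, each given by some symbol `(q, p, p')` and all but finitely
many of them by the same symbol. The element is the sequence of the operators
`x ↦ u⁻¹ (x - l n x)`.
-/

set_option autoImplicit false

namespace Pool.Agent.Results.MP_a7dadb_al.NoCommonPowerInverse

open Pool.Q297.UR Finset Polynomial Filter

/-- the base field -/
abbrev F0 : Type := ZMod 2

/-- the field of rational functions -/
abbrev K0 : Type := RatFunc F0

theorem aeval_inj : Function.Injective (Polynomial.aeval (R := F0) (RatFunc.X : K0)) :=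
  transcendental_iff_injective.mp RatFunc.transcendental_X

theorem exists_D : ∃ D : K0 →ₗ[F0] F0[X], ∀ j, D ((RatFunc.X : K0) ^ j) = X ^ j := by
  obtain ⟨D, hD⟩ := LinearMap.exists_leftInverse_of_injective
    (Polynomial.aeval (R := F0) (RatFunc.X : K0)).toLinearMap
    (LinearMap.ker_eq_bot.mpr aeval_inj)
  refine ⟨D, fun j => ?_⟩
  have := congrArg (fun f : F0[X] →ₗ[F0] F0[X] => f (X ^ j)) hD
  simpa using this

/-- A multiplier which sends all powers of `u` into a finite-dimensional space is zero. -/
theorem mult_zero (z : K0) (P : Submodule F0 K0) (hP : FiniteDimensional F0 P)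
    (h : ∀ j, z * (RatFunc.X : K0) ^ j ∈ P) : z = 0 := by
  by_contra hz
  let f : F0[X] →ₗ[F0] K0 :=
    LinearMap.mulLeft F0 z ∘ₗ (Polynomial.aeval (R := F0) (RatFunc.X : K0)).toLinearMap
  have hf : Function.Injective f := by
    intro a b hab
    apply aeval_inj
    exact mul_left_cancel₀ hz hab
  have hfP : ∀ q, f q ∈ P := by
    intro q
    change z * Polynomial.aeval (RatFunc.X : K0) q ∈ P
    rw [Polynomial.aeval_eq_sum_range, Finset.mul_sum]
    apply Submodule.sum_mem
    intro i _
    rw [mul_smul_comm]
    exact Submodule.smul_mem _ _ (h i)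
  have hfin : Module.Finite F0 F0[X] :=
    Module.Finite.of_injective (LinearMap.codRestrict P f hfP)
      (fun a b hab => hf (congrArg Subtype.val hab))
  exact Polynomial.not_finite hfin

theorem result : ∃ (R : Type) (_ : Ring R),
    (∀ x : R, ∃ v : Rˣ, x * v * x = x) ∧
    ∃ a : R, ∀ w : R, ∃ k : ℕ, 1 ≤ k ∧ a ^ k * w ^ k * a ^ k ≠ a ^ k := by
  obtain ⟨D, hD⟩ := exists_D
  have hu : (RatFunc.X : K0) ≠ 0 := RatFunc.X_ne_zero
  let u : K0 := RatFunc.X
  let c : K0 →ₗ[F0] F0 := Polynomial.lcoeff F0 0 ∘ₗ D
  let lam : ℕ → (K0 →ₗ[F0] F0) := fun n => c + Polynomial.lcoeff F0 (n + 1) ∘ₗ D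
  have hlamapp : ∀ n x, lam n x = (D x).coeff 0 + (D x).coeff (n + 1) := fun n x => rfl
  have hev : ∀ x : K0, ∀ᶠ n in atTop, (D x).coeff (n + 1) = 0 := by
    intro x
    filter_upwards [eventually_ge_atTop (D x).natDegree] with n hn
    exact coeff_eq_zero_of_natDegree_lt (by omega)
  have hc : ∀ x : K0, ∀ᶠ n in atTop, lam n x = c x := by
    intro x
    filter_upwards [hev x] with n hn
    rw [hlamapp, hn, add_zero]
    rfl
  have hlamu : ∀ n j, lam n (u ^ j) = (if j = 0 then 1 else 0) + (if j = n + 1 then 1 else 0) := by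
    intro n j
    rw [hlamapp, hD, coeff_X_pow, coeff_X_pow]
    simp only [eq_comm]
  have hlam1 : ∀ n, lam n 1 = 1 := fun n => l_one (lam n) u (n + 1) (by omega) (hlamu n)
  have hc1 : c 1 = 1 := by
    have := hD 0
    rw [pow_zero, pow_zero] at this
    change (D 1).coeff 0 = 1
    rw [this]
    exact coeff_one_zero
  have ha : (fun n => aop (lam n) u) ∈ RR c lam hc := by
    constructor
    · intro n
      exact ⟨_, _, inferInstance, _, _, rfl⟩
    · exact ⟨u⁻¹, Unit, inferInstance, fun _ => - u⁻¹, fun _ => 1,
        Eventually.of_forall (fun n => rfl)⟩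
  refine ⟨RR c lam hc, inferInstance, RR_unit_regular c hc1 lam hlam1 hc, ⟨_, ha⟩, ?_⟩
  rintro ⟨w, hw⟩
  by_contra hcon
  push Not at hcon
  obtain ⟨_, q, ι, hι, p, p', hw2⟩ := hw
  have hk : ∀ k, 1 ≤ k → ∀ n, aop (lam n) u ^ k * w n ^ k * aop (lam n) u ^ k =
      aop (lam n) u ^ k := by
    intro k hk n
    have := congrArg (fun x : RR c lam hc => (x : ℕ → Module.End F0 K0) n) (hcon k hk)
    exact this
  have hk1 : ∀ n, aop (lam n) u * w n * aop (lam n) u = aop (lam n) u := by
    intro n
    have := hk 1 (le_refl _) n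
    simpa only [pow_one] using this
  -- the multiplier of `w` is `u`
  have hq : q - u = 0 := by
    apply mult_zero (q - u) (Submodule.span F0 (insert (1 : K0) (Set.range p)))
    · exact FiniteDimensional.span_of_finite F0 ((Set.finite_range p).insert 1)
    · intro j
      obtain ⟨n, hn1, hn2⟩ := (hw2.and (eventually_ge_atTop (j + 1))).exists
      have h1 := w_of (lam n) u hu (n + 1) (by omega) (hlamu n) (w n) (hk1 n) (u ^ j)
        (by rw [← pow_succ']
            exact l_mid (lam n) u (n + 1) (by omega) (hlamu n) (by omega) (by omega))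
      have h2 : w n (u ^ j) = q * u ^ j + ∑ i, lam n (p' i * u ^ j) • p i := by
        rw [hn1, T_apply]
      have h3 : (q - u) * u ^ j = lam n (w n (u ^ j)) • (1 : K0) +
          - ∑ i, lam n (p' i * u ^ j) • p i := by
        have h4 : q * u ^ j + ∑ i, lam n (p' i * u ^ j) • p i =
            u * u ^ j + lam n (w n (u ^ j)) • (1 : K0) := by
          rw [← h2]; exact h1
        rw [sub_mul]
        linear_combination h4
      change (q - u) * u ^ j ∈ _
      rw [h3]
      apply Submodule.add_mem
      · exact Submodule.smul_mem _ _ (Submodule.subset_span (Set.mem_insert _ _))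
      · apply Submodule.neg_mem
        apply Submodule.sum_mem
        intro i _
        exact Submodule.smul_mem _ _ (Submodule.subset_span (Set.mem_insert_of_mem _ ⟨i, rfl⟩))
  have hqu : q = u := sub_eq_zero.mp hq
  have he1 : ∀ᶠ n in atTop, ∀ i, (D (p i)).coeff (n + 1) = 0 := by
    rw [eventually_all]
    intro i
    exact hev _
  have he2 : ∀ᶠ n in atTop, ∀ i, (D (p' i)).coeff (n + 1 + 1) = 0 := by
    rw [eventually_all]
    intro i
    exact (tendsto_add_atTop_nat 1).eventually (hev (p' i))
  obtain ⟨n, hn1, hn2, hn3⟩ := (hw2.and (he1.and he2)).exists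
  rw [hqu] at hn1
  have h1 := hk1 n
  have h2 := hk (n + 1 + 1) (by omega) n
  rw [hn1] at h1 h2
  exact component (lam n) u hu (n + 1) (by omega) (hlamu n) D hD p p' hn2 hn3 h1 h2

end Pool.Agent.Results.MP_a7dadb_al.NoCommonPowerInverse
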